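import Pool.Agent.Results.MP_7193be_nt.JensenPowersCM
import Pool.Agent.TH99.RJ.WW

/-!
# The number of non-real zeros of the Jensen polynomials of the Hasse-Weil L-functions of the powers
of a CM elliptic curve

Let `E : y² = x³ - x`, `X = E^g`, `i` odd, `0 < i < 2g`, and let `Λ` be the completed Hasse-Weil L-function
of `H^i(X)` (definitions of the starting file `Pool.Agent.Results.MP_7193be_nt.JensenPowersCM`).  All
zeros of `Λ` lie on the line `Re s = (i+1)/2` (part (d) of the problem for this `X` and `i`) if and only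
if the Jensen polynomials `jensen (F i Λ) r d n` have no zeros outside of `(-∞, 0]`.  We prove, without
any hypothesis, that, for all `d` and `n`, they have at most `C(g, i) d ^ (2/3) log (d + 1)` zeros
outside of `(-∞, 0]`.
-/

set_option autoImplicit false

namespace Pool.Agent.Results.MP_7193be_nt.JensenNonReal

open Complex Polynomial
open scoped ComplexConjugate
open Pool.Agent.Results.MP_7193be_nt.JensenPowersCM (IsHasseWeil IsCompleted F gamma jensen)

/-- The number of complex zeros of a real polynomial outside of the half-line `(-∞, 0]`, counted with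
multiplicity (`0` for the zero polynomial). -/
noncomputable def outside (P : ℝ[X]) : ℕ :=
  ((P.map (algebraMap ℝ ℂ)).roots.filter fun z => ¬ (z.im = 0 ∧ z.re ≤ 0)).card

/-- **The theorem.** -/
theorem result (g i : ℕ) (hi : Odd i) (hg : i < 2 * g) :
    ∃ L Λ : ℂ → ℂ, IsHasseWeil g i L ∧ IsCompleted g i L Λ ∧
      (∀ s : ℂ, Λ (conj s) = conj (Λ s)) ∧
      ∃ r : ℕ, r ≤ 1 ∧ (∀ s : ℂ, Λ (i + 1 - s) = (-1) ^ r * Λ s) ∧
        (∃ C : ℝ, ∀ d n : ℕ,
          (outside (jensen (F i Λ) r d n) : ℝ) ≤ C * ((d : ℝ) ^ (2 / 3 : ℝ) * Real.log (d + 1))) ∧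
        ((∀ s : ℂ, Λ s = 0 → s.re = ((i : ℝ) + 1) / 2) ↔
          ∀ d n : ℕ, outside (jensen (F i Λ) r d n) = 0) := by
  obtain ⟨m, rfl⟩ := hi
  obtain ⟨Λ, r, hr, h1, h2, h3, h4, ⟨⟨C, -, h6⟩, h7⟩⟩ :=
    Pool.Agent.TH99.RJ.WW.main' g m (by omega)
  exact ⟨fun s => Pool.Agent.W355.HW.LL0 g m (s - ((2 * m + 1 : ℕ) : ℂ) / 2), Λ,
    ⟨(Pool.Agent.W355.HW.LL0_diff g m).comp (differentiable_id.sub_const _),
      fun α β hαβ s hs => Pool.Agent.W355.HW.LL0_prod g m α β hαβ s hs⟩, ⟨h1, h2⟩, h3, r, hr, h4,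
    ⟨C, h6⟩, h7⟩

end Pool.Agent.Results.MP_7193be_nt.JensenNonReal
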