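import Pool.Agent.Results.MP_7193be_nt.JensenPowersCM
import Pool.Agent.TH809.TP.HWm

/-!
# Multiple positivity for the Hasse-Weil L-functions of the powers of a CM elliptic curve

Let `E : y² = x³ - x`, `X = E^g`, `i` odd, `0 < i < 2g`, and let `Λ` be the completed Hasse-Weil L-function
of `H^i(X)` (definitions of the starting file `Pool.Agent.Results.MP_7193be_nt.JensenPowersCM`).  Let
`F(z) = Λ((i+1)/2 + z) = z^r G(z²)`, `r ≤ 1`.

We prove, without any hypothesis, that there is a constant `C = C(g, i)` such that for all orders `m` and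
all `n ≥ C log (m + 1)` all minors of order `m` of the Toeplitz matrix of the Taylor coefficients of the
`n`-th derivative of `G` are nonnegative, and that all zeros of `Λ` lie on the line `Re s = (i+1)/2` (part (d)
of the problem for this `X` and `i`) if and only if the remaining minors are nonnegative.
-/

set_option autoImplicit false

namespace Pool.Agent.Results.MP_7193be_nt.MultiplePositivity

open Complex
open scoped ComplexConjugate
open Pool.Agent.Results.MP_7193be_nt.JensenPowersCM (IsHasseWeil IsCompleted F gamma)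

/-- The `k`-th Taylor coefficient of the `n`-th derivative of `G`, where `F(z) = z^r G(z²)`, that is
`G(x) = ∑ γ(k) x^k / k!`. -/
noncomputable def coef (F : ℂ → ℂ) (r n k : ℕ) : ℝ := gamma F r (n + k) / (k.factorial : ℝ)

/-- The upper triangular Toeplitz matrix of these coefficients (row `i`, column `j`). -/
noncomputable def T (F : ℂ → ℂ) (r n i j : ℕ) : ℝ := if i ≤ j then coef F r n (j - i) else 0

/-- All minors of order `m` of the infinite matrix `T F r n` are nonnegative. -/
def NonnegMinors (F : ℂ → ℂ) (r n m : ℕ) : Prop := ∀ a b : Fin m → ℕ, StrictMono a → StrictMono b →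
  0 ≤ (Matrix.of fun p q => T F r n (a p) (b q)).det

/-- **The theorem.** -/
theorem result (g i : ℕ) (hi : Odd i) (hg : i < 2 * g) :
    ∃ L Λ : ℂ → ℂ, IsHasseWeil g i L ∧ IsCompleted g i L Λ ∧
      (∀ s : ℂ, Λ (conj s) = conj (Λ s)) ∧
      ∃ r : ℕ, r ≤ 1 ∧ (∀ s : ℂ, Λ (i + 1 - s) = (-1) ^ r * Λ s) ∧
        ∃ C : ℝ, 0 < C ∧
          (∀ m n : ℕ, C * Real.log (m + 1) ≤ n → NonnegMinors (F i Λ) r n m) ∧
          ((∀ s : ℂ, Λ s = 0 → s.re = ((i : ℝ) + 1) / 2) ↔
            ∀ m n : ℕ, (n : ℝ) < C * Real.log (m + 1) → NonnegMinors (F i Λ) r n m) := by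
  obtain ⟨m, rfl⟩ := hi
  obtain ⟨Λ, r, hr, h1, h2, h3, h4, ⟨C, hC, h6, h7⟩⟩ := Pool.Agent.TH809.TP.HWm.main' g m (by omega)
  exact ⟨fun s => Pool.Agent.W355.HW.LL0 g m (s - ((2 * m + 1 : ℕ) : ℂ) / 2), Λ,
    ⟨(Pool.Agent.W355.HW.LL0_diff g m).comp (differentiable_id.sub_const _),
      fun α β hαβ s hs => Pool.Agent.W355.HW.LL0_prod g m α β hαβ s hs⟩, ⟨h1, h2⟩, h3, r, hr, h4,
    C, hC, h6, h7⟩

end Pool.Agent.Results.MP_7193be_nt.MultiplePositivity
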