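import Pool.Agent.TH942.RA.PolCon
import Pool.Agent.TH270.SH.NFS
import Pool.Agent.TH652.COL.NF

/-!
# Continuation, Tate pole, zeros and central order of `L(H^i(X), s)` from one mean of numbers of points

`X` is a projective variety of dimension `d` over a number field `K`, given by homogeneous polynomials
over `𝓞 K` (for example `K = ℚ` and `X` smooth over `ℤ[1/M]`), and `B_v` are the Euler factors of
`L(s) = L(H^i(X), s)`: for almost all primes `v` the polynomial `∏ (1 - α_j z)` of the eigenvalues of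
Frobenius on `H^i`, which are determined by the numbers of points of `X` over the finite extensions of the
residue field, and at the other primes arbitrary real polynomials with constant term `1` whose roots have
absolute values `≥ q_v^{-i/2}` (for example `1`, if the Euler factors at the primes dividing `M` are left out). Let
`c = (i+1)/2` be the centre and for real `k ≥ 0`

`Π_k(Y) = ∏_{q_v ≤ Y} B_v(q_v^{-c}) ^ ((1 - log q_v / log Y)^k)`,
`I_k(Y) = ∑_{2 ≤ n ≤ Y} (1 - log n / log Y)^k / (√n log n)`.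

NO analytic continuation of `L(s)` is assumed. It is shown that for every natural number `ρ ≥ 1` and every real
number `r` the following are equivalent (for even `i` there is always such a pole; `ρ = 0`, which is the case of the
odd `i`, is our `MP_6dc9d1_nt.RieszContinuation`):

* there is a holomorphic function `G` on the half plane `Re s > c` with
  `L(s) = ((s - c + 1)/(s - c - 1/2))^ρ exp G(s)` for `Re s > i/2 + 1` and
  `|G(s) - r log ((s - c)/(s - c + 1))| ≤ C (|s - c| / Re (s - c))^κ` for some `C`, `κ`; so `L(s)` extends to a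
  meromorphic function on `Re s > c` without zeros, whose only pole is the point `s = i/2 + 1` of the conjecture
  of Tate, of order `ρ`, and which is of the order of magnitude `x^r` at `c + x`, `x → 0+`;
* `Π_k(Y) ≍ (log Y)^r exp(-ρ I_k(Y))` for ONE real `k ≥ 0`;
* `Π_k(Y) ≍ (log Y)^r exp(-ρ I_k(Y))` for all sufficiently large `k`.

If the function `(s - i/2 - 1)^ρ L(s)` has a continuation `Φ` which is holomorphic for `Re s > c` and at `s = c`,
each of these implies that `Φ` has the order `r` at `c` and no zeros with `Re s > c` (so that the pole of `L` at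
`i/2 + 1` has the exact order `ρ`); and if moreover `Φ` has moderate growth (polynomial in `|s|` and `1 / Re (s - c)`,
as follows from a functional equation), then they are equivalent to this.

Proof. `D(s) = ∑ log B_v(q_v^{-c}) q_v^{-s} = - log L(c + s) + O(|s| / Re s)`, and
`∑_{n ≥ 2} n^{-1/2-s} / log n = log ((s + 1)/(s - 1/2)) + h(s)` with `h` holomorphic and `O(|s| / Re s)` for
`Re s > 0` (`ζ(w) = 1 + 1/(w-1) - w ∫ {u} u^{-w-1} du`), so that `D(s) + ρ ∑ n^{-1/2-s} / log n` has no singularity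
at `1/2`. The first law gives the continuation of this Dirichlet series, by comparison with the Laplace transform
of the Riesz mean of `(1 - e^{-u})/u`; conversely the Riesz mean is a contour integral of the continuation.
-/

set_option autoImplicit false

open Filter Topology NumberField IsDedekindDomain Polynomial

namespace Pool.Agent.Results.MP_7193be_nt.PolarRieszLaw

open Pool.Agent.TH652.COL (IsEulerSystem IsFrobenius cone)

section definitions

variable {K : Type} [Field K] [NumberField K]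

/-- The norm `q_v` of a prime. -/
noncomputable def q (v : HeightOneSpectrum (𝓞 K)) : ℕ := Ideal.absNorm v.asIdeal

/-- All complex roots of all `B_v` have absolute value at least `q_v^{-i/2}`. For almost all `v` this
follows from `IsEulerSystem`; it is the purity of the Euler factors at the other primes. -/
def IsPure (B : HeightOneSpectrum (𝓞 K) → ℝ[X]) (i : ℕ) : Prop :=
  ∀ v, ∀ ρ : ℂ, ((B v).map (algebraMap ℝ ℂ)).IsRoot ρ → (q v : ℝ) ^ (-((i : ℝ) / 2)) ≤ ‖ρ‖

/-- The `L`-function, the product of the `B_v(q_v^{-s})⁻¹`; it is used for `Re s > i/2 + 1`, where the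
product converges absolutely. -/
noncomputable def L (B : HeightOneSpectrum (𝓞 K) → ℝ[X]) (s : ℂ) : ℂ :=
  ∏' v : HeightOneSpectrum (𝓞 K), (((B v).map (algebraMap ℝ ℂ)).eval ((q v : ℂ) ^ (-s)))⁻¹

/-- The centre `(i + 1)/2`. -/
noncomputable def centre (i : ℕ) : ℝ := ((i : ℝ) + 1) / 2

/-- `Π_k(Y)`: the product over the primes with `q_v ≤ Y` of the powers of `B_v(q_v^{-c})`, `c = (i + 1)/2`,
with exponents `(1 - log q_v / log Y)^k`. -/
noncomputable def rieszProduct (B : HeightOneSpectrum (𝓞 K) → ℝ[X]) (i : ℕ) (k Y : ℝ) : ℝ :=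
  ∏ᶠ (v : HeightOneSpectrum (𝓞 K)) (_ : (q v : ℝ) ≤ Y),
    ((B v).eval ((q v : ℝ) ^ (-centre i))) ^ ((1 - Real.log (q v) / Real.log Y) ^ k)

/-- `I_k(Y)`: the sum of `(1 - log n / log Y)^k / (√n log n)` over the integers `2 ≤ n ≤ Y`. -/
noncomputable def mainTerm (k Y : ℝ) : ℝ :=
  ∑ n ∈ Finset.Icc 2 ⌊Y⌋₊, (1 - Real.log n / Real.log Y) ^ k / (√(n : ℝ) * Real.log n)

/-- The law `Π_k(Y) ≍ (log Y)^r exp(-ρ I_k(Y))`. -/
def Law (B : HeightOneSpectrum (𝓞 K) → ℝ[X]) (i ρ : ℕ) (k r : ℝ) : Prop :=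
  ∃ A₁ A₂ : ℝ, 0 < A₁ ∧ 0 < A₂ ∧ ∀ᶠ Y : ℝ in atTop,
    A₁ * (Real.log Y ^ r * Real.exp (-(ρ * mainTerm k Y))) ≤ rieszProduct B i k Y ∧
      rieszProduct B i k Y ≤ A₂ * (Real.log Y ^ r * Real.exp (-(ρ * mainTerm k Y)))

/-- There is a holomorphic function `G` on the half plane `Re s > c`, `c = (i + 1)/2`, with
`exp G(s) = ((s - c - 1/2)/(s - c + 1))^ρ L(s)` for `Re s > i/2 + 1 = c + 1/2` and
`|G(s) - r log ((s - c)/(s - c + 1))| ≤ C (|s - c| / Re (s - c))^κ`. -/
def HasPolarLogarithm (B : HeightOneSpectrum (𝓞 K) → ℝ[X]) (i ρ : ℕ) (r : ℝ) : Prop :=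
  ∃ G : ℂ → ℂ, (∀ s : ℂ, centre i < s.re → DifferentiableAt ℂ G s) ∧
    (∀ s : ℂ, (i : ℝ) / 2 + 1 < s.re →
      Complex.exp (G s) = ((s - centre i - 1 / 2) / (s - centre i + 1)) ^ ρ * L B s) ∧
    ∃ C κ : ℝ, ∀ s : ℂ, centre i < s.re →
      ‖G s - r * Complex.log ((s - centre i) / (s - centre i + 1))‖ ≤
        C * (‖s - centre i‖ / (s.re - centre i)) ^ κ

/-- `Φ` is holomorphic for `Re s > (i + 1)/2` and at `s = (i + 1)/2`, and is equal to
`(s - i/2 - 1)^ρ L(s)` for `Re s > i/2 + 1`. -/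
def Continues (B : HeightOneSpectrum (𝓞 K) → ℝ[X]) (i ρ : ℕ) (Φ : ℂ → ℂ) : Prop :=
  (∀ s : ℂ, centre i < s.re → DifferentiableAt ℂ Φ s) ∧ AnalyticAt ℂ Φ (centre i) ∧
    ∀ s : ℂ, (i : ℝ) / 2 + 1 < s.re → Φ s = (s - ((i : ℂ) / 2 + 1)) ^ ρ * L B s

/-- `|Φ(s)| ≤ A (1 + |s|)^A (1 + 1/(Re s - c))^A` for `Re s > c = (i + 1)/2`. -/
def ModerateGrowth (i : ℕ) (Φ : ℂ → ℂ) : Prop :=
  ∃ A : ℝ, ∀ s : ℂ, centre i < s.re →
    ‖Φ s‖ ≤ A * (1 + ‖s‖) ^ A * (1 + 1 / (s.re - centre i)) ^ A

end definitions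

section proofs

open Pool.Agent.TH270.SH Pool.Agent.TH942.ES
open Pool.Agent.TH942.RA

variable {K : Type} [Field K] [NumberField K] {B : HeightOneSpectrum (𝓞 K) → ℝ[X]} {i D ρ : ℕ}
  {Φ : ℂ → ℂ} {k r : ℝ}

theorem centre_half (i : ℕ) : centre i + 1 / 2 = (i : ℝ) / 2 + 1 := by
  unfold centre
  ring

/-- the mean over the integers -/
theorem MI_eq (k : ℝ) {Y : ℝ} (hY : 0 < Y) : MI k (Real.log Y) = mainTerm k Y := by
  unfold MI Rm mainTerm
  rw [tsum_eq_sum (s := Finset.range (⌊Y⌋₊ - 1)) (fun n hn => ?_)]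
  · have h1 : Finset.Icc 2 ⌊Y⌋₊ = Finset.Ico 2 (⌊Y⌋₊ + 1) := by
      ext n
      rw [Finset.mem_Icc, Finset.mem_Ico]
      omega
    rw [h1, Finset.sum_Ico_eq_sum_range]
    have h2 : ⌊Y⌋₊ + 1 - 2 = ⌊Y⌋₊ - 1 := by omega
    rw [h2]
    refine Finset.sum_congr rfl fun n hn => ?_
    rw [Finset.mem_range] at hn
    have h3 : (((2 + n : ℕ)) : ℝ) = (n : ℝ) + 2 := by push_cast; ring
    have h4 : ((n : ℝ) + 2) ≤ Y := by
      have h5 : 2 + n ≤ ⌊Y⌋₊ := by omega
      have h6 := (Nat.cast_le (α := ℝ)).2 h5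
      rw [h3] at h6
      exact h6.trans (Nat.floor_le hY.le)
    have h5 : (0 : ℝ) < (n : ℝ) + 2 := by positivity
    unfold lamI cI
    rw [if_pos (Real.log_le_log h5 h4), h3]
    ring
  · rw [if_neg]
    intro h
    rw [Finset.mem_range] at hn
    unfold lamI at h
    have h5 : (0 : ℝ) < (n : ℝ) + 2 := by positivity
    have h6 := (Real.log_le_log_iff h5 hY).1 h
    have h7 : n + 2 ≤ ⌊Y⌋₊ := by
      rw [Nat.le_floor_iff hY.le]
      push_cast
      exact h6
    omega

theorem eul (h0 : ∀ v, (B v).coeff 0 = 1) (hD : ∀ v, (B v).natDegree ≤ D) (hp : IsPure B i) :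
    Eul B D (centre i) where
  const := h0
  deg := hD
  root := fun v ρ hρ => by
    have h := hp v ρ hρ
    have e : (1 : ℝ) / 2 - centre i = -((i : ℝ) / 2) := by
      unfold centre
      ring
    rw [e]
    exact h

variable (h : Eul B D (centre i))
include h

theorem factor_pos (v : HeightOneSpectrum (𝓞 K)) : 0 < (B v).eval ((q v : ℝ) ^ (-centre i)) :=
  (h.local v).1

theorem rieszProduct_eq (k Y : ℝ) : rieszProduct B i k Y =
    ∏ v ∈ (h.sys.fin_le Y).toFinset,
      ((B v).eval ((q v : ℝ) ^ (-centre i))) ^ ((1 - Real.log (q v) / Real.log Y) ^ k) :=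
  finprod_mem_eq_finite_toFinset_prod
    (fun v => ((B v).eval ((q v : ℝ) ^ (-centre i))) ^ ((1 - Real.log (q v) / Real.log Y) ^ k))
    (h.sys.fin_le Y)

theorem rieszProduct_pos (k Y : ℝ) : 0 < rieszProduct B i k Y := by
  rw [rieszProduct_eq h]
  exact Finset.prod_pos fun v _ => Real.rpow_pos_of_pos (factor_pos h v) _

theorem log_rieszProduct (k : ℝ) {Y : ℝ} (hY : 0 < Y) :
    Real.log (rieszProduct B i k Y) = Rz nmK (alB B D (centre i)) k (Real.log Y) := by
  rw [rieszProduct_eq h, Real.log_prod fun v _ => (Real.rpow_pos_of_pos (factor_pos h v) _).ne']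
  unfold Rz
  rw [tsum_eq_sum (s := (h.sys.fin_le Y).toFinset)]
  · refine Finset.sum_congr rfl fun v hv => ?_
    have h1 : (nmK v : ℝ) ≤ Y := (h.sys.fin_le Y).mem_toFinset.1 hv
    rw [if_pos (Real.log_le_log (h.sys.Npos v) h1), Real.log_rpow (factor_pos h v), h.cv_eq, mul_comm]
    rfl
  · intro v hv
    rw [if_neg]
    intro h1
    refine hv ((h.sys.fin_le Y).mem_toFinset.2 ?_)
    exact (Real.log_le_log_iff (h.sys.Npos v) hY).1 h1

theorem law_iff : Law B i ρ k r ↔ PolLaw nmK (alB B D (centre i)) ρ k r := by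
  have key : ∀ {T : ℝ}, 0 < T → ∀ A : ℝ, 0 < A →
      Real.log (A * (T ^ r * Real.exp (-(ρ * mainTerm k (Real.exp T))))) =
        Real.log A + (r * Real.log T - ρ * MI k T) := by
    intro T hT A hA
    have hlp : 0 < T ^ r := Real.rpow_pos_of_pos hT _
    have h1 := MI_eq k (Real.exp_pos T)
    rw [Real.log_exp] at h1
    rw [Real.log_mul hA.ne' (mul_pos hlp (Real.exp_pos _)).ne', Real.log_mul hlp.ne'
      (Real.exp_pos _).ne', Real.log_rpow hT, Real.log_exp, h1]
    ring
  constructor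
  · rintro ⟨A₁, A₂, h1, h2, h3⟩
    refine ⟨|Real.log A₁| + |Real.log A₂|, ?_⟩
    have h3' := Real.tendsto_exp_atTop.eventually h3
    filter_upwards [h3', eventually_gt_atTop 0] with T h4 hT
    rw [Real.log_exp] at h4
    have hlp : 0 < T ^ r := Real.rpow_pos_of_pos hT _
    have h6 := Real.log_le_log (mul_pos h1 (mul_pos hlp (Real.exp_pos _))) h4.1
    have h7 := Real.log_le_log (rieszProduct_pos h k (Real.exp T)) h4.2
    rw [key hT A₁ h1, log_rieszProduct h k (Real.exp_pos T), Real.log_exp] at h6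
    rw [key hT A₂ h2, log_rieszProduct h k (Real.exp_pos T), Real.log_exp] at h7
    have h8 := neg_abs_le (Real.log A₁)
    have h9 := le_abs_self (Real.log A₂)
    have h10 := abs_nonneg (Real.log A₁)
    have h11 := abs_nonneg (Real.log A₂)
    rw [abs_le]
    constructor <;> linarith
  · rintro ⟨C, h3⟩
    refine ⟨Real.exp (-C), Real.exp C, Real.exp_pos _, Real.exp_pos _, ?_⟩
    have h3' := Real.tendsto_log_atTop.eventually h3
    filter_upwards [h3', eventually_gt_atTop 1] with Y h4 h5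
    have hY : 0 < Y := by linarith
    have hl : 0 < Real.log Y := Real.log_pos h5
    have e1 : Real.log Y ^ r = Real.exp (r * Real.log (Real.log Y)) := by
      rw [Real.rpow_def_of_pos hl, mul_comm]
    rw [← log_rieszProduct h k hY, MI_eq k hY, abs_le] at h4
    rw [e1, ← Real.exp_add, ← Real.exp_add, ← Real.exp_add]
    constructor
    · rw [← Real.le_log_iff_exp_le (rieszProduct_pos h k Y)]
      linarith [h4.1]
    · rw [← Real.log_le_iff_le_exp (rieszProduct_pos h k Y)]
      linarith [h4.2]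

/-- translation of the logarithm -/
theorem logarithm_iff : HasPolarLogarithm B i ρ r ↔ PolCont nmK (alB B D (centre i)) ρ r := by
  have hch := centre_half i
  constructor
  · rintro ⟨G, h1, h2, C, κ, h3⟩
    refine ⟨fun s => G (centre i + s), fun s hs => ?_, fun s hs => ?_, C, κ, fun s hs => ?_⟩
    · have e1 : centre i < ((centre i : ℂ) + s).re := by
        rw [Complex.add_re, Complex.ofReal_re]
        linarith
      exact DifferentiableAt.comp (f := fun s : ℂ => (centre i : ℂ) + s) s (h1 _ e1) (by fun_prop)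
    · have e1 : (i : ℝ) / 2 + 1 < ((centre i : ℂ) + s).re := by
        rw [Complex.add_re, Complex.ofReal_re]
        linarith
      simp only
      rw [h2 _ e1, h.LE_eq, add_sub_cancel_left]
      rfl
    · have e1 : centre i < ((centre i : ℂ) + s).re := by
        rw [Complex.add_re, Complex.ofReal_re]
        linarith
      have e2 := h3 _ e1
      rw [add_sub_cancel_left, Complex.add_re, Complex.ofReal_re, add_sub_cancel_left,
        add_comm s 1] at e2
      exact e2
  · rintro ⟨G, h1, h2, C, κ, h3⟩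
    have hre : ∀ s : ℂ, (s - centre i).re = s.re - centre i := fun s => by
      rw [Complex.sub_re, Complex.ofReal_re]
    refine ⟨fun s => G (s - centre i), fun s hs => ?_, fun s hs => ?_, C, κ, fun s hs => ?_⟩
    · exact DifferentiableAt.comp (f := fun s : ℂ => s - centre i) s
        (h1 _ (by rw [hre]; linarith)) (by fun_prop)
    · have e1 := h2 (s - centre i) (by rw [hre]; linarith)
      simp only
      rw [e1, h.LE_eq, add_sub_cancel]
      rfl
    · have e1 := h3 (s - centre i) (by rw [hre]; linarith)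
      rw [hre, add_comm 1 (s - (centre i : ℂ))] at e1
      exact e1

theorem con (hF : Continues B i ρ Φ) :
    PolCon nmK (alB B D (centre i)) ρ (fun s => Φ (centre i + s) * ((s + 1) ^ ρ)⁻¹) where
  diff := fun s hs => by
    have e1 : centre i < ((centre i : ℂ) + s).re := by
      rw [Complex.add_re, Complex.ofReal_re]
      linarith
    have h1 : s + 1 ≠ 0 := by
      intro h2
      have h3 := congrArg Complex.re h2
      rw [Complex.add_re, Complex.one_re, Complex.zero_re] at h3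
      linarith
    have h2 : DifferentiableAt ℂ (fun s : ℂ => Φ (centre i + s)) s :=
      DifferentiableAt.comp (f := fun s : ℂ => (centre i : ℂ) + s) s (hF.1 _ e1) (by fun_prop)
    exact h2.mul (DifferentiableAt.inv (by fun_prop) (pow_ne_zero _ h1))
  eq := fun s hs => by
    have hch := centre_half i
    have e1 : (i : ℝ) / 2 + 1 < ((centre i : ℂ) + s).re := by
      rw [Complex.add_re, Complex.ofReal_re]
      linarith
    have e2 : (centre i : ℂ) + s - ((i : ℂ) / 2 + 1) = s - 1 / 2 := by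
      unfold centre
      push_cast
      ring
    rw [hF.2.2 _ e1, e2, h.LE_eq, div_pow]
    show (s - 1 / 2) ^ ρ * L B (centre i + s) * ((s + 1) ^ ρ)⁻¹ =
      (s - 1 / 2) ^ ρ / (s + 1) ^ ρ * L B (centre i + s)
    ring

omit h in
/-- translation of the growth condition -/
theorem growth (hF : ModerateGrowth i Φ) : ∃ A : ℝ, ∀ s : ℂ, 0 < s.re →
    ‖Φ (centre i + s)‖ ≤ A * (1 + ‖s‖) ^ A * (1 + 1 / s.re) ^ A := by
  obtain ⟨A, hA⟩ := hF
  have hc0 : 0 ≤ centre i := by
    unfold centre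
    positivity
  rcases lt_or_ge A 0 with h0 | h0
  · refine ⟨A, fun s hs => ?_⟩
    have e1 : centre i < ((centre i : ℂ) + s).re := by
      rw [Complex.add_re, Complex.ofReal_re]
      linarith
    have e2 := hA _ e1
    exfalso
    have e3 : 0 < (1 + ‖(centre i : ℂ) + s‖) ^ A := by positivity
    have e4 : 0 < (1 + 1 / (((centre i : ℂ) + s).re - centre i)) ^ A := by
      have : 0 < ((centre i : ℂ) + s).re - centre i := by linarith
      positivity
    have e5 := norm_nonneg (Φ (centre i + s))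
    have e6 : A * (1 + ‖(centre i : ℂ) + s‖) ^ A *
        (1 + 1 / (((centre i : ℂ) + s).re - centre i)) ^ A < 0 :=
      mul_neg_of_neg_of_pos (mul_neg_of_neg_of_pos h0 e3) e4
    linarith
  · set b : ℝ := 1 + centre i with hb
    have hb1 : 1 ≤ b := by linarith
    set A' : ℝ := A * b ^ A + A with hA'
    have hbA : 1 ≤ b ^ A := Real.one_le_rpow hb1 h0
    have hAA : A ≤ A' := by
      have : 0 ≤ A * b ^ A := by positivity
      linarith
    refine ⟨A', fun s hs => ?_⟩
    have e1 : centre i < ((centre i : ℂ) + s).re := by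
      rw [Complex.add_re, Complex.ofReal_re]
      linarith
    have e2 := hA _ e1
    have e3 : ((centre i : ℂ) + s).re - centre i = s.re := by
      rw [Complex.add_re, Complex.ofReal_re]
      ring
    rw [e3] at e2
    refine e2.trans ?_
    have e4 : 1 + ‖(centre i : ℂ) + s‖ ≤ b * (1 + ‖s‖) := by
      have e5 := norm_add_le (centre i : ℂ) s
      rw [Complex.norm_real, Real.norm_eq_abs, abs_of_nonneg hc0] at e5
      have e6 : 0 ≤ centre i * ‖s‖ := mul_nonneg hc0 (norm_nonneg _)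
      rw [hb]
      nlinarith
    have e5 : (1 + ‖(centre i : ℂ) + s‖) ^ A ≤ b ^ A * (1 + ‖s‖) ^ A := by
      rw [← Real.mul_rpow (by linarith) (by positivity)]
      exact Real.rpow_le_rpow (by positivity) e4 h0
    have e6 : (1 + ‖s‖) ^ A ≤ (1 + ‖s‖) ^ A' :=
      Real.rpow_le_rpow_of_exponent_le (by linarith [norm_nonneg s]) hAA
    have e7 : (1 + 1 / s.re) ^ A ≤ (1 + 1 / s.re) ^ A' := by
      refine Real.rpow_le_rpow_of_exponent_le ?_ hAA
      have : 0 < 1 / s.re := by positivity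
      linarith
    have e8 : 0 ≤ (1 + 1 / s.re) ^ A := by positivity
    calc A * (1 + ‖(centre i : ℂ) + s‖) ^ A * (1 + 1 / s.re) ^ A ≤
        A * (b ^ A * (1 + ‖s‖) ^ A) * (1 + 1 / s.re) ^ A := by gcongr
      _ = (A * b ^ A) * (1 + ‖s‖) ^ A * (1 + 1 / s.re) ^ A := by ring
      _ ≤ A' * (1 + ‖s‖) ^ A' * (1 + 1 / s.re) ^ A' := by
        have : A * b ^ A ≤ A' := by linarith
        gcongr

omit h in
/-- the growth after division -/
theorem growth' (hF : ModerateGrowth i Φ) : ∃ A : ℝ, ∀ s : ℂ, 0 < s.re →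
    ‖Φ (centre i + s) * ((s + 1) ^ ρ)⁻¹‖ ≤ A * (1 + ‖s‖) ^ A * (1 + 1 / s.re) ^ A := by
  obtain ⟨A, hA⟩ := growth hF
  refine ⟨A, fun s hs => ?_⟩
  rw [norm_mul, norm_inv, norm_pow]
  have h1 : 1 ≤ ‖s + 1‖ := by
    have := Complex.re_le_norm (s + 1)
    rw [Complex.add_re, Complex.one_re] at this
    linarith
  have h2 : (‖s + 1‖ ^ ρ)⁻¹ ≤ 1 := inv_le_one_of_one_le₀ (one_le_pow₀ h1)
  calc ‖Φ (centre i + s)‖ * (‖s + 1‖ ^ ρ)⁻¹ ≤ ‖Φ (centre i + s)‖ * 1 :=
        mul_le_mul_of_nonneg_left h2 (norm_nonneg _)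
    _ = ‖Φ (centre i + s)‖ := mul_one _
    _ ≤ _ := hA s hs

omit h in
/-- order and zeros after translation and division -/
theorem shift (ha : AnalyticAt ℂ Φ (centre i)) :
    AnalyticAt ℂ (fun s => Φ (centre i + s) * ((s + 1) ^ ρ)⁻¹) 0 ∧
      analyticOrderAt (fun s => Φ (centre i + s) * ((s + 1) ^ ρ)⁻¹) 0 =
        analyticOrderAt Φ (centre i) := by
  obtain ⟨h1, h2⟩ := Pool.Agent.TH270.SH.order_shift ha
  have h3 : AnalyticAt ℂ (fun s : ℂ => ((s + 1) ^ ρ)⁻¹) 0 := by
    refine AnalyticAt.inv (by fun_prop) ?_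
    rw [zero_add, one_pow]
    exact one_ne_zero
  refine ⟨h1.mul h3, ?_⟩
  have h4 : analyticOrderAt (fun s : ℂ => ((s + 1) ^ ρ)⁻¹) 0 = 0 := by
    rw [h3.analyticOrderAt_eq_zero, zero_add, one_pow, inv_one]
    exact one_ne_zero
  have h5 := analyticOrderAt_mul h1 h3
  rw [h4, add_zero] at h5
  rw [← h2]
  exact h5

end proofs

/-- **Continuation, pole, zeros and central order from one Riesz mean of numbers of points.** -/
theorem result (K : Type) [Field K] [NumberField K] {n : ℕ} (X : Set (MvPolynomial (Fin n) (𝓞 K)))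
    (d i N : ℕ) (B : HeightOneSpectrum (𝓞 K) → ℝ[X]) (hB : IsEulerSystem X d i N B)
    (hpure : IsPure B i) (ρ : ℕ) (_hρ : 1 ≤ ρ) :
    -- no continuation is assumed
    (∀ r : ℝ, List.TFAE [HasPolarLogarithm B i ρ r,
      ∃ k : ℝ, 0 ≤ k ∧ Law B i ρ k r,
      ∃ k₀ : ℝ, 0 ≤ k₀ ∧ ∀ k : ℝ, k₀ ≤ k → Law B i ρ k r]) ∧
    -- if a continuation of `(s - i/2 - 1)^ρ L(s)` is known, holomorphic for `Re s > c` and at `c`
    ∀ Φ : ℂ → ℂ, Continues B i ρ Φ → ∀ r : ℕ,
      (∀ k : ℝ, 0 ≤ k → Law B i ρ k r →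
        analyticOrderAt Φ (centre i) = r ∧ ∀ s : ℂ, centre i < s.re → Φ s ≠ 0) ∧
      (ModerateGrowth i Φ →
        List.TFAE [analyticOrderAt Φ (centre i) = r ∧ ∀ s : ℂ, centre i < s.re → Φ s ≠ 0,
          ∃ k : ℝ, 0 ≤ k ∧ Law B i ρ k r,
          ∃ k₀ : ℝ, 0 ≤ k₀ ∧ ∀ k : ℝ, k₀ ≤ k → Law B i ρ k r]) := by
  obtain ⟨N', ⟨β₀, E⟩, -⟩ := hB.ldata
  have h : Pool.Agent.TH270.SH.Eul B N' (centre i) := eul hB.const (fun v => E.deg v) hpure
  refine ⟨fun r => ?_, fun Φ hF r => ?_⟩
  · simp only [logarithm_iff h, law_iff h]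
    exact Pool.Agent.TH942.RA.pol_tfae h.sys ρ r
  · obtain ⟨ha, ho⟩ := shift (ρ := ρ) hF.2.1
    have hc := con h hF
    have hzero : (∀ s : ℂ, centre i < s.re → Φ s ≠ 0) ↔
        ∀ s : ℂ, 0 < s.re → Φ (centre i + s) * ((s + 1) ^ ρ)⁻¹ ≠ 0 := by
      have hne : ∀ s : ℂ, 0 < s.re → ((s + 1) ^ ρ)⁻¹ ≠ 0 := by
        intro s hs
        refine inv_ne_zero (pow_ne_zero _ fun h2 => ?_)
        have h3 := congrArg Complex.re h2
        rw [Complex.add_re, Complex.one_re, Complex.zero_re] at h3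
        linarith
      constructor
      · intro h1 s hs
        refine mul_ne_zero (h1 _ ?_) (hne s hs)
        rw [Complex.add_re, Complex.ofReal_re]
        linarith
      · intro h1 s hs
        have := left_ne_zero_of_mul (h1 (s - centre i) (by
          rw [Complex.sub_re, Complex.ofReal_re]
          linarith))
        rwa [add_sub_cancel] at this
    rw [hzero, ← ho]
    simp only [law_iff h]
    refine ⟨fun k hk hl => ?_, fun hg => ?_⟩
    · exact Pool.Agent.TH942.RA.of_polCon hc ha (Pool.Agent.TH942.RA.polCont_of_law h.sys hk hl)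
    · obtain ⟨A, hA⟩ := growth' (ρ := ρ) hg
      exact Pool.Agent.TH942.RA.polCon_tfae h.sys hc ha hA r

end Pool.Agent.Results.MP_7193be_nt.PolarRieszLaw
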