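import Pool.Agent.TH839.UH.Coh

/-!
# Derivatives of the heat flow of all Hasse-Weil L-functions, with one constant

Let `X` be projective and smooth over `ℤ[1/N]` and let `Λ` be the completed L-function `Λ_A(i; X, s)`, for
even `i` multiplied by `((s - i/2) (s - i/2 - 1))^r` if it has poles of order `r` at `s = i/2`, `i/2 + 1`.
Let `D = d/ds` and let `Λ_t = e^{t D²} Λ` be the heat flow.  Part (d) of the problem for `(X, i)` implies
that all zeros of `D^n Λ_t` are on the line `Re s = (i+1)/2` for all `n` and all `t ≥ 0`.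

Let `ℓ(y) = b_i + log 𝔠(y)` with the Betti number `b_i` and the analytic conductor
`𝔠(y) = A ∏ (1 + |μ + i y|)` at height `y` (the product over the parameters `μ` of the gamma factors
`Γ_ℝ`).  We prove that there is ONE constant `C`, the same for all `N`, `X`, `i` (so for all Betti
numbers, all Hodge numbers and all conductors), such that all zeros of `D^n Λ_t` at height `y` are on the
line, and are simple, if

  `n + t ℓ(y)² ≥ C ℓ(y)`.

This is proved

* (I) for all `X` and `i` for which the continuation and the functional equation (parts (a), (b)) are known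
  or assumed: `Λ` is entire, of finite order, and `Λ(s) = ± Λ(i + 1 - s)`;
* (II) without any hypothesis for `X = E^g`, `E : y² = x³ - x`, for all `g` and all odd `i < 2g`.

For `t = 0` it says: the zeros of the `n`-th derivative of `Λ` are on the line and simple up to the height
where the logarithm of the analytic conductor is `n / C - b_i`.  If `n t ≥ C` the condition holds for all
`y`: then ALL zeros of `D^n Λ_t` are on the line and simple, a range of `(n, t)` which is the same for all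
Hasse-Weil L-functions.  So part (d) for `(X, i)` is equivalent to the statement that for `t > 0` the zeros
of the functions `D^n Λ_t` in the regions `n + t ℓ(y)² < C ℓ(y)` are on the line.

In (I) `X` enters through the following data (`Cohomology i`), which by Deligne's theorem have the
properties required: the polynomials `P_i(X(p), T) ∈ ℤ[T]` for `p ∤ N`, with constant term `1`, degree
`b_i` and reciprocal roots of absolute value `p^{i/2}`; the Hodge numbers; and polynomials for the primes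
`p ∣ N`, of degree at most `b_i` and with reciprocal roots at most `p^{(i+1)/2}` (`p^{i/2}` is expected by
the weight monodromy conjecture, and is known for example for curves, surfaces and abelian varieties).

Proof.  `D^n Λ_t` is (up to normalisation) a sum of two half-line integrals `h(x) ± conj h(-x)` at
distance `x` from the line, and one shows `|h(x)| > |h(-x)|` for `x > 0` by the saddle point method: the
saddle is at distance `S` from the line, where `S ell(S) = n + 2 t ell(S)²` and `ell(S)` is the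
logarithmic derivative of the gamma factor and conductor at distance `S`.  If the saddle is far away the
Gaussian average and the derivative are treated together by convolution of the explicit kernels.  All
constants are independent of the degree `b_i`.  The L-functions of `E^g` are products of Hecke
L-functions.

The modules are `Pool.Agent.TH839.UH` (with parts by helpers 71, 194, 761, 921), over the modules
`Pool.Agent.W355.UN`, `Pool.Agent.W355.HW` and `Pool.Agent.W169.HF` (uniform heat flow without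
derivatives; the L-functions of `E^g`) and `Pool.Agent.H353R7` of the starting files.
-/

set_option autoImplicit false

namespace Pool.Agent.Results.MP_7193be_nt.UniformDerivatives

open Complex Polynomial
open scoped ComplexConjugate

/-! ### The data of a Hasse-Weil L-function -/

/-- The Betti number `b_i = 2 ∑_{p < q, p + q = i} h^{p,q} + h^{m,+} + h^{m,-}` (the last two for
`i = 2m`), where `hodge p = h^{p, i-p}`. -/
def bettiOf (i : ℕ) (hodge : ℕ → ℕ) (plus minus : ℕ) : ℕ :=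
  2 * ∑ p ∈ Finset.range ((i + 1) / 2), hodge p + (if Even i then plus + minus else 0)

/-- What enters of the cohomology `H^i` of a projective smooth scheme `X` over `ℤ[1/N]` in the Hasse-Weil
L-function `L(i; X, s)` and its gamma factor. -/
structure Cohomology (i : ℕ) where
  /-- the integer `N`: good reduction for `p ∤ N` -/
  N : ℕ
  /-- the Hodge numbers `hodge p = h^{p, i - p}` for `2 p < i` -/
  hodge : ℕ → ℕ
  /-- `h^{m,+}` for `i = 2m` -/
  plus : ℕ
  /-- `h^{m,-}` for `i = 2m` -/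
  minus : ℕ
  /-- `P_i(X(p), T)` for `p ∤ N`, and `det(1 - Frob_p T | H^i(X)^{I_p})` for `p ∣ N` -/
  P : ℕ → ℤ[X]
  N_pos : 0 < N
  betti_pos : 0 < bettiOf i hodge plus minus
  const : ∀ p : ℕ, p.Prime → (P p).coeff 0 = 1
  degree_good : ∀ p : ℕ, p.Prime → ¬ p ∣ N → (P p).natDegree = bettiOf i hodge plus minus
  degree_bad : ∀ p : ℕ, p.Prime → p ∣ N → (P p).natDegree ≤ bettiOf i hodge plus minus
  roots_good : ∀ p : ℕ, p.Prime → ¬ p ∣ N → ∀ z : ℂ, aeval z (P p) = 0 →
    ‖z‖ = (p : ℝ) ^ (-((i : ℝ) / 2))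
  roots_bad : ∀ p : ℕ, p.Prime → p ∣ N → ∀ z : ℂ, aeval z (P p) = 0 →
    (p : ℝ) ^ (-(((i : ℝ) + 1) / 2)) ≤ ‖z‖

namespace Cohomology

variable {i : ℕ} (V : Cohomology i)

/-- the Betti number `b_i` -/
def betti : ℕ := bettiOf i V.hodge V.plus V.minus

/-- the L-function (with the factors at the primes dividing `N`) in the half-plane of convergence -/
noncomputable def L (s : ℂ) : ℂ :=
  ∏' p : Nat.Primes, (aeval (((p : ℕ) : ℂ) ^ (-s)) (V.P p))⁻¹

/-- the gamma factor `Γ_i(s) = ∏_{p<q} Γ_ℂ(s-p)^{h^{p,q}} Γ_ℝ(s-m)^{h^{m,+}} Γ_ℝ(s-m+1)^{h^{m,-}}`, the last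
two factors for `i = 2m` only -/
noncomputable def gammaFactor (s : ℂ) : ℂ :=
  (∏ p ∈ Finset.range ((i + 1) / 2), Gammaℂ (s - p) ^ V.hodge p) *
    (if Even i then Gammaℝ (s - (i : ℂ) / 2) ^ V.plus * Gammaℝ (s - (i : ℂ) / 2 + 1) ^ V.minus
      else 1)

/-- the analytic conductor at height `y`, for the conductor `A` -/
noncomputable def analyticConductor (A y : ℝ) : ℝ :=
  A * ((∏ p ∈ Finset.range ((i + 1) / 2), ((1 + ‖(y : ℂ) * I + ((i : ℂ) / 2 - p)‖) *
    (1 + ‖(y : ℂ) * I + ((i : ℂ) / 2 - p + 1)‖)) ^ V.hodge p) *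
    (if Even i then (1 + ‖(y : ℂ) * I + 0‖) ^ V.plus * (1 + ‖(y : ℂ) * I + 1‖) ^ V.minus else 1))

/-- `Λ` is the completed L-function `Λ_A(i; X, s)` (multiplied by `((s - i/2) (s - i/2 - 1))^r`), and it
has the properties (a), (b): it is entire, of finite order, and `Λ(s) = ± Λ(i + 1 - s)`. -/
structure Continued (A : ℝ) (r : ℕ) (Λ : ℂ → ℂ) : Prop where
  one_le : 1 ≤ A
  r_le : r ≤ V.betti
  entire : Differentiable ℂ Λ
  order : ∃ c ρ : ℝ, ∀ s : ℂ, ‖Λ s‖ ≤ Real.exp (c * (1 + ‖s‖) ^ ρ)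
  fe : ∃ ε : ℝ, (ε = 1 ∨ ε = -1) ∧ ∀ s : ℂ, Λ s = ε * Λ (i + 1 - s)
  eq : ∃ σ : ℝ, ∀ s : ℂ, σ ≤ s.re → Λ s = ((s - (i : ℂ) / 2) * (s - (i : ℂ) / 2 - 1)) ^ r *
    ((A : ℂ) ^ (s / 2) * V.gammaFactor s * V.L s)

end Cohomology

/-! ### The powers of the curve `y² = x³ - x` -/

/-- `a_p`: the prime `p` minus the number of the pairs `(x, y)` modulo `p` with `y² = x³ - x` -/
noncomputable def a (p : ℕ) : ℤ :=
  (p : ℤ) - (((Finset.range p ×ˢ Finset.range p).filter
    (fun xy : ℕ × ℕ => (p : ℤ) ∣ (xy.2 : ℤ) ^ 2 - ((xy.1 : ℤ) ^ 3 - (xy.1 : ℤ)))).card : ℤ)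

/-- `α p`, `β p` are the roots of `T² - a_p T + p` for every prime `p ≠ 2` -/
def FrobeniusRoots (α β : ℕ → ℂ) : Prop :=
  ∀ p : ℕ, p.Prime → p ≠ 2 → α p + β p = (a p : ℂ) ∧ α p * β p = p

/-- `P_i(X(p), p^{-s})` for `X = E^g`: the product of `(1 - α^j β^(i-j) p^(-s))` over `0 ≤ j ≤ i`
with the multiplicities `C(g, j) C(g, i-j)` -/
noncomputable def P (g i : ℕ) (α β : ℂ) (p : ℕ) (s : ℂ) : ℂ :=
  ∏ j ∈ Finset.range (i + 1),
    (1 - α ^ j * β ^ (i - j) * (p : ℂ) ^ (-s)) ^ (g.choose j * g.choose (i - j))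

/-- `L` is the continuation of `L(i; E^g, s) = ∏_{p ≠ 2} P_i(X(p), p^{-s})⁻¹` to an entire
function -/
def IsHasseWeil (g i : ℕ) (L : ℂ → ℂ) : Prop :=
  Differentiable ℂ L ∧ ∀ α β : ℕ → ℂ, FrobeniusRoots α β → ∀ s : ℂ, 1 + (i : ℝ) / 2 < s.re →
    HasProd (fun p : {p : ℕ // p.Prime ∧ p ≠ 2} => (P g i (α p) (β p) p s)⁻¹) (L s)

/-- the conductor `A = 32^N`, `N = ∑_{p < q, p + q = i} h^{p,q}`, `h^{p,q} = C(g, p) C(g, q)` -/
noncomputable def A (g i : ℕ) : ℝ :=
  32 ^ (∑ p ∈ Finset.range ((i + 1) / 2), g.choose p * g.choose (i - p))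

/-- the Gamma factor `Γ_i(s) = ∏_{p < q, p + q = i} Γ_ℂ(s - p)^{h^{p,q}}`, `h^{p,q} = C(g, p) C(g, q)`;
here `Γ_ℂ(s) = Γ_ℝ(s) Γ_ℝ(s + 1)` -/
noncomputable def gammaFactor (g i : ℕ) (s : ℂ) : ℂ :=
  ∏ p ∈ Finset.range ((i + 1) / 2), Gammaℂ (s - p) ^ (g.choose p * g.choose (i - p))

/-- the analytic conductor at height `y`: `A ∏_{p<q} ((1 + |i/2 - p + √-1 y|)
(1 + |i/2 - p + 1 + √-1 y|))^{h^{p,q}}` -/
noncomputable def analyticConductor (g i : ℕ) (y : ℝ) : ℝ :=
  A g i * ∏ p ∈ Finset.range ((i + 1) / 2),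
    ((1 + ‖(y : ℂ) * I + ((i : ℂ) / 2 - p)‖) * (1 + ‖(y : ℂ) * I + ((i : ℂ) / 2 - p + 1)‖)) ^
      (g.choose p * g.choose (i - p))

/-- `Λ` is entire and `Λ(s) = A^((s - i/2)/2) Γ_i(s) L(s)` for `Re s > (i - 1)/2` -/
def IsCompleted (g i : ℕ) (L Λ : ℂ → ℂ) : Prop :=
  Differentiable ℂ Λ ∧ ∀ s : ℂ, ((i : ℝ) - 1) / 2 < s.re →
    Λ s = (A g i : ℂ) ^ ((s - (i : ℂ) / 2) / 2) * gammaFactor g i s * L s

/-! ### The heat flow and its derivatives -/

/-- The heat flow `Λ_t = e^{t D²} Λ` (`D = d/ds`) as a Gaussian average: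
`Λ_t(s) = π^(-1/2) ∫ exp (-v²) Λ(s + 2 √t v) dv`. -/
noncomputable def heat (t : ℝ) (Λ : ℂ → ℂ) (s : ℂ) : ℂ :=
  ((1 / Real.sqrt Real.pi : ℝ) : ℂ) *
    ∫ v : ℝ, ((Real.exp (-v ^ 2) : ℝ) : ℂ) * Λ (s + ((2 * Real.sqrt t * v : ℝ) : ℂ))

/-- The statements on the derivatives of the heat flow of `Λ` (a completed L-function of degree `b` and
conductor `A`, with critical line `Re s = x` and analytic conductor `𝔠(y)` at height `y`), with the
constant `C`; here `ℓ(y) = b + log 𝔠(y)`.

* `zeros`: zeros at height `y` with `n + t ℓ(y)² ≥ C ℓ(y)` are on the line and simple.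
* `all`: if `n t ≥ C`, all zeros are on the line and simple.
* `cond`: if `t (b + log A) ≥ C`, all zeros are on the line and simple.
* `grh`: the Riemann hypothesis for `Λ` is equivalent to the statement that the zeros in the remaining
  regions `n + t ℓ(y)² < C ℓ(y)` for `t > 0` are on the line. -/
structure HeatDerivatives (C x : ℝ) (b : ℕ) (A : ℝ) (𝔠 : ℝ → ℝ) (Λ : ℂ → ℂ) : Prop where
  zeros : ∀ (n : ℕ) (t : ℝ) (s : ℂ), 0 ≤ t →
    C * (b + Real.log (𝔠 s.im)) ≤ n + t * (b + Real.log (𝔠 s.im)) ^ 2 →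
    iteratedDeriv n (heat t Λ) s = 0 → s.re = x ∧ iteratedDeriv (n + 1) (heat t Λ) s ≠ 0
  all : ∀ (n : ℕ) (t : ℝ), 0 ≤ t → C ≤ n * t → ∀ s : ℂ,
    iteratedDeriv n (heat t Λ) s = 0 → s.re = x ∧ iteratedDeriv (n + 1) (heat t Λ) s ≠ 0
  cond : ∀ (n : ℕ) (t : ℝ), 0 ≤ t → C ≤ t * (b + Real.log A) → ∀ s : ℂ,
    iteratedDeriv n (heat t Λ) s = 0 → s.re = x ∧ iteratedDeriv (n + 1) (heat t Λ) s ≠ 0
  grh : (∀ s : ℂ, Λ s = 0 → s.re = x) ↔ ∀ (n : ℕ) (t : ℝ) (s : ℂ), 0 < t →
    n + t * (b + Real.log (𝔠 s.im)) ^ 2 < C * (b + Real.log (𝔠 s.im)) →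
    iteratedDeriv n (heat t Λ) s = 0 → s.re = x

/-- **The theorem.**  There is one constant `C > 0` such that the statements `HeatDerivatives` hold

* (I) for the L-function of every `X` in every degree `i`, if it has the continuation and the functional
  equation;
* (II) for `X = E^g`, `g` and `i` arbitrary, `i < 2g` odd, unconditionally (the Betti number is
  `(2 * g).choose i`). -/
theorem result : ∃ C : ℝ, 0 < C ∧
    (∀ (i : ℕ) (V : Cohomology i) (A : ℝ) (r : ℕ) (Λ : ℂ → ℂ), V.Continued A r Λ →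
      HeatDerivatives C (((i : ℝ) + 1) / 2) V.betti A (V.analyticConductor A) Λ) ∧
    (∀ g i : ℕ, Odd i → i < 2 * g →
      ∃ L Λ : ℂ → ℂ, IsHasseWeil g i L ∧ IsCompleted g i L Λ ∧
        (∀ s : ℂ, Λ (conj s) = conj (Λ s)) ∧
        (∃ r : ℕ, r ≤ 1 ∧ ∀ s : ℂ, Λ (i + 1 - s) = (-1) ^ r * Λ s) ∧
        HeatDerivatives C (((i : ℝ) + 1) / 2) ((2 * g).choose i) (A g i) (analyticConductor g i) Λ) := by
  obtain ⟨C, hC, H1, H2⟩ := Pool.Agent.TH839.UH.finH
  refine ⟨C, hC, fun i V A r Λ h => ?_, fun g i hi hg => ?_⟩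
  · have hres := Pool.Agent.TH839.UH.Coh.main H2 (i := i) (h := V.hodge) (a := V.plus) (b := V.minus)
      (P := V.P) V.betti_pos V.const (fun p hp => ?_) (fun p hp z hz => ?_) h.one_le h.r_le h.entire
      h.order h.fe h.eq
    · exact ⟨hres.loc, hres.hyp, hres.con, hres.iff⟩
    · by_cases hpN : p ∣ V.N
      · exact V.degree_bad p hp hpN
      · exact (V.degree_good p hp hpN).le
    · by_cases hpN : p ∣ V.N
      · exact V.roots_bad p hp hpN z hz
      · rw [V.roots_good p hp hpN z hz]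
        exact Real.rpow_le_rpow_of_exponent_le (by exact_mod_cast hp.one_le) (by linarith)
  · obtain ⟨m, rfl⟩ := hi
    obtain ⟨Λ, h1, h2, h3, h4, hres⟩ := Pool.Agent.TH839.UH.pow_cm H1 g m (by omega)
    exact ⟨fun s => Pool.Agent.W355.HW.LL0 g m (s - ((2 * m + 1 : ℕ) : ℂ) / 2), Λ,
      ⟨(Pool.Agent.W355.HW.LL0_diff g m).comp (differentiable_id.sub_const _),
        fun α β hαβ s hs => Pool.Agent.W355.HW.LL0_prod g m α β hαβ s hs⟩, ⟨h1, h2⟩, h3, h4,
      ⟨hres.loc, hres.hyp, hres.con, hres.iff⟩⟩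

end Pool.Agent.Results.MP_7193be_nt.UniformDerivatives
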